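import Pool.Agent.helper21.OD.SpecA

/-!
# od:MAN: the continued fraction trick
-/

set_option autoImplicit false

namespace Pool.Agent.OD

open MvPolynomial Matrix

private theorem MAN_ne {t : ℤ} (γ : GO t) {v : Vec t} (hv : v ≠ 0) : γ.val *ᵥ v ≠ 0 := by
  intro h
  apply hv
  have h1 : (γ⁻¹).val *ᵥ (γ.val *ᵥ v) = v := by
    rw [Matrix.mulVec_mulVec, ← Units.val_mul, inv_mul_cancel, Units.val_one, Matrix.one_mulVec]
  rw [← h1, h, Matrix.mulVec_zero]

private theorem MAN_self {t : ℤ} {M : Type} [AddCommGroup M] {φ : Vec t → Vec t → M} (hφ : IsCus φ) (u : Vec t)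
    (hu : u ≠ 0) : φ u u = 0 := by
  have h := hφ.add u u u hu hu hu
  simpa using h

private theorem MAN_gl {t : ℤ} (A : Mat t) (hA : IsUnit A.det) : ∃ g : GO t, g.val = A :=
  ⟨Matrix.GeneralLinearGroup.mk'' A hA, rfl⟩

private theorem MAN_e1 {t : ℤ} : (![1, 0] : Vec t) ≠ 0 := by
  intro h
  have h1 := congrFun h 0
  simp only [Matrix.cons_val_zero, Pi.zero_apply] at h1
  exact one_ne_zero h1

private theorem MAN_claim (hEUC : EUC_stmt) (t : ℤ) (ht : t = 0 ∨ t = 1) {M : Type} [AddCommGroup M]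
    (φ : Vec t → Vec t → M) (hφ : IsCus φ) (S : AddSubgroup M)
    (hS : ∀ γ : GO t, φ (γ.val *ᵥ ![1, 0]) (γ.val *ᵥ ![0, 1]) ∈ S) :
    ∀ (n : ℕ) (p q : Oz t) (γ : GO t), (QuadraticAlgebra.norm q).toNat = n → (![p, q] : Vec t) ≠ 0 →
      φ (γ.val *ᵥ ![1, 0]) (γ.val *ᵥ ![p, q]) ∈ S := by
  intro n
  induction n using Nat.strong_induction_on with
  | _ n ih =>
    intro p q γ hn hne
    by_cases hq : q = 0
    · subst hq
      have hp : p ≠ 0 := by
        intro hp
        apply hne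
        rw [hp]
        funext i
        fin_cases i <;> rfl
      have e : (![p, 0] : Vec t) = p • ![1, 0] := by
        ext i <;> fin_cases i <;> simp
      rw [e, Matrix.mulVec_smul, hφ.smul_right p _ _ hp, MAN_self hφ _ (MAN_ne γ MAN_e1)]
      exact S.zero_mem
    · obtain ⟨h, h1, h2⟩ := hEUC t ht p q hq
      obtain ⟨g, hg⟩ := MAN_gl (!![h, 1; 1, 0] : Mat t) (by
        rw [Matrix.det_fin_two_of]
        simp)
      obtain ⟨d, hd⟩ := MAN_gl (!![1, h; 0, 1] : Mat t) (by
        rw [Matrix.det_fin_two_of]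
        simp)
      have hqr : (![q, p - h * q] : Vec t) ≠ 0 := by
        intro h3
        exact hq (by simpa using congrFun h3 0)
      have e1 : g.val *ᵥ ![q, p - h * q] = ![p, q] := by
        rw [hg]
        ext i
        · fin_cases i <;> simp [Matrix.mulVec, dotProduct, Fin.sum_univ_two]
        · fin_cases i <;> simp [Matrix.mulVec, dotProduct, Fin.sum_univ_two]
      have e2 : g.val *ᵥ ![1, 0] = d.val *ᵥ ![0, 1] := by
        rw [hg, hd]
        ext i
        · fin_cases i <;> simp [Matrix.mulVec, dotProduct, Fin.sum_univ_two]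
        · fin_cases i <;> simp [Matrix.mulVec, dotProduct, Fin.sum_univ_two]
      have e3 : d.val *ᵥ ![1, 0] = (![1, 0] : Vec t) := by
        rw [hd]
        ext i
        · fin_cases i <;> simp [Matrix.mulVec, dotProduct, Fin.sum_univ_two]
        · fin_cases i <;> simp [Matrix.mulVec, dotProduct, Fin.sum_univ_two]
      have k1 : φ (γ.val *ᵥ ![1, 0]) (γ.val *ᵥ (g.val *ᵥ ![1, 0])) ∈ S := by
        have := hS (γ * d)
        rw [Units.val_mul, ← Matrix.mulVec_mulVec, ← Matrix.mulVec_mulVec, e3, ← e2] at this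
        exact this
      have k2 : φ (γ.val *ᵥ (g.val *ᵥ ![1, 0])) (γ.val *ᵥ ![p, q]) ∈ S := by
        have := ih (QuadraticAlgebra.norm (p - h * q)).toNat (by omega) q (p - h * q) (γ * g) rfl hqr
        rw [Units.val_mul, ← Matrix.mulVec_mulVec, ← Matrix.mulVec_mulVec, e1] at this
        exact this
      rw [← hφ.add _ (γ.val *ᵥ (g.val *ᵥ ![1, 0])) _ (MAN_ne γ MAN_e1) (MAN_ne γ (MAN_ne g MAN_e1)) (MAN_ne γ hne)]
      exact S.add_mem k1 k2

theorem MAN (hEUC : EUC_stmt) : MAN_stmt := by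
  intro t ht M _ φ hφ S hS u v
  have key : ∀ w : Vec t, w ≠ 0 → φ ![1, 0] w ∈ S := by
    intro w hw
    have e : w = ![w 0, w 1] := by
      funext i
      fin_cases i <;> rfl
    have h := MAN_claim hEUC t ht φ hφ S hS _ (w 0) (w 1) 1 rfl (by rw [← e]; exact hw)
    rw [← e, Units.val_one, Matrix.one_mulVec, Matrix.one_mulVec] at h
    exact h
  by_cases hu : u = 0
  · rw [hu, hφ.zero_left]
    exact S.zero_mem
  by_cases hv : v = 0
  · rw [hv, hφ.zero_right]
    exact S.zero_mem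
  rw [← hφ.add u ![1, 0] v hu MAN_e1 hv]
  refine S.add_mem ?_ (key v hv)
  have h1 := hφ.add u ![1, 0] u hu MAN_e1 hu
  rw [MAN_self hφ u hu] at h1
  rw [eq_neg_of_add_eq_zero_left h1]
  exact S.neg_mem (key u hu)

end Pool.Agent.OD
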